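import Pool.Agent.K1H26.RD.Main2

/-!
# RD6: the theorem
-/

set_option autoImplicit false

namespace Pool.Agent.K1H26.RD

open Finset Filter
open Pool.Agent.W301.SS
open Pool.Agent.H807R2.Dav
open Pool.Agent.K1H84.RD

theorem ev_cond {C g ν : ℝ} (hC : 0 < C) (hg : 0 < g) (hν : 0 < ν) (A : ℕ) :
    ∃ l₀ : ℝ, ∀ l : ℝ, l₀ ≤ l → 3 ≤ l ∧ 12 * C * g * (1 + l) ^ 7 * l ^ A ≤ Real.exp (ν * l) ∧
      4 * g ^ 2 ≤ Real.exp (l / 5) ∧ 48 * g ^ 3 * C * (1 + l) ^ 7 * (2 * l) ^ 2 ≤ l ^ 20 := by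
  have h1 := (isLittleO_pow_exp_pos_mul_atTop (7 + A) hν).bound
    (show (0 : ℝ) < 1 / (12 * C * g * 128) by positivity)
  have h2 : ∀ᶠ l : ℝ in atTop, 4 * g ^ 2 ≤ Real.exp (l / 5) :=
    (Real.tendsto_exp_atTop.comp (tendsto_id.atTop_div_const (by norm_num : (0 : ℝ) < 5))).eventually_ge_atTop _
  have h3 : ∀ᶠ l : ℝ in atTop, 3 ≤ l := eventually_ge_atTop 3
  have h4 : ∀ᶠ l : ℝ in atTop, 48 * 512 * g ^ 3 * C ≤ l := eventually_ge_atTop _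
  obtain ⟨l₀, hl₀⟩ := eventually_atTop.1 (h1.and (h2.and (h3.and h4)))
  refine ⟨l₀, fun l hl => ?_⟩
  obtain ⟨a1, a2, a3, a4⟩ := hl₀ l hl
  have hl0 : 0 < l := by linarith
  have h7 : (1 + l) ^ 7 ≤ 128 * l ^ 7 := by
    calc (1 + l) ^ 7 ≤ (2 * l) ^ 7 := pow_le_pow_left₀ (by linarith) (by linarith) 7
      _ = _ := by ring
  refine ⟨a3, ?_, a2, ?_⟩
  · rw [Real.norm_of_nonneg (by positivity), Real.norm_of_nonneg (Real.exp_pos _).le] at a1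
    have h8 : 12 * C * g * 128 * l ^ (7 + A) ≤ Real.exp (ν * l) := by
      have h9 := mul_le_mul_of_nonneg_left a1 (show (0 : ℝ) ≤ 12 * C * g * 128 by positivity)
      refine h9.trans (le_of_eq ?_)
      field_simp
    calc 12 * C * g * (1 + l) ^ 7 * l ^ A ≤ 12 * C * g * (128 * l ^ 7) * l ^ A := by gcongr
      _ = 12 * C * g * 128 * l ^ (7 + A) := by rw [pow_add]; ring
      _ ≤ _ := h8
  · have h10 : l ≤ l ^ 11 := le_self_pow₀ (by linarith) (by norm_num)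
    calc 48 * g ^ 3 * C * (1 + l) ^ 7 * (2 * l) ^ 2 ≤ 48 * g ^ 3 * C * (128 * l ^ 7) * (2 * l) ^ 2 := by gcongr
      _ = (48 * 512 * g ^ 3 * C) * l ^ 9 := by ring
      _ ≤ l ^ 11 * l ^ 9 := mul_le_mul_of_nonneg_right (a4.trans h10) (by positivity)
      _ = _ := by ring

theorem t_MAIN (hShell : S_SHELL) (hL1 : S_L1) (hSP : S_SP) (hKer : S_KER) : S_MAIN := by
  intro g δ hg hδ0 hδ1 A
  obtain ⟨C, hC, hSP⟩ := hSP
  have hν : 0 < 1 / 5 - δ := by linarith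
  have hgR : (4 : ℝ) ≤ g := by exact_mod_cast hg
  obtain ⟨E, hE⟩ : ∃ E : ℕ, (A : ℝ) + 20 ≤ E * (1 / 5 - δ) := by
    refine ⟨⌈((A : ℝ) + 20) / (1 / 5 - δ)⌉₊, ?_⟩
    rw [← div_le_iff₀ hν]
    exact Nat.le_ceil _
  obtain ⟨l₀, hl₀⟩ := ev_cond hC (show (0 : ℝ) < (g : ℝ) by linarith) hν A
  refine ⟨5 * E + A + 10, 5 * E + A + 10, ⌈l₀⌉₊, ?_⟩
  intro k hk D F hF M hM H H1 hH hHl hHH1 hH1l
  have hlog1 : 1 ≤ Real.log g := by
    rw [Real.le_log_iff_exp_le (by linarith)]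
    have := Real.exp_one_lt_d9
    linarith
  have hlM : Real.log M = ((k : ℝ) + 1) * Real.log g := by
    rw [hM]; push_cast; rw [Real.log_pow]; push_cast; ring
  have hk0 : (0 : ℝ) ≤ k := Nat.cast_nonneg _
  have hkl : (k : ℝ) + 1 ≤ Real.log M := by
    rw [hlM]
    exact le_mul_of_one_le_right (by linarith) hlog1
  have hl : l₀ ≤ Real.log M := by
    have h1 := Nat.le_ceil l₀
    have h2 : ((⌈l₀⌉₊ : ℕ) : ℝ) ≤ k := by exact_mod_cast hk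
    linarith
  obtain ⟨b1, b2, b3, b4⟩ := hl₀ _ hl
  refine main_k hShell hL1 hC hSP hKer hg hδ0 hδ1 hE hF hM rfl b1 b2 b3 ?_ hH hHl hHH1 hH1l
  refine le_trans ?_ b4
  gcongr
  linarith

end Pool.Agent.K1H26.RD
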