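import Pool.Agent.W301.SS.Core

/-!
# RD6, first part: Dirichlet approximation of the frequencies `r / M`
-/

set_option autoImplicit false

namespace Pool.Agent.K1H26.RD

open Finset Filter
open Pool.Agent.W301.SS
open Pool.Agent.H807R2.Dav

theorem SP_neg (N : ℕ) (α : ℝ) : ‖SP N (-α)‖ = ‖SP N α‖ := by
  have h : SP N (-α) = (starRingEnd ℂ) (SP N α) := by
    unfold SP
    rw [map_sum]
    refine sum_congr rfl fun n _ => ?_
    rw [map_mul, Complex.conj_ofReal, star_ee, mul_neg]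
  rw [h, Complex.norm_conj]

theorem FA_int (S : Finset ℕ) (x : ℝ) (z : ℤ) : FA S (x + z) = FA S x := by
  unfold FA
  refine sum_congr rfl fun a _ => ?_
  have : (a : ℝ) * (x + z) = a * x + (((a : ℤ) * z : ℤ) : ℝ) := by push_cast; ring
  rw [this, ee_add_int]

theorem FA_le (S : Finset ℕ) (x : ℝ) : ‖FA S x‖ ≤ S.card := by
  unfold FA
  refine (norm_sum_le _ _).trans ?_
  simp [norm_ee]

theorem rep {N M : ℕ} (hN : 1 ≤ N) (hM : M = N + 1) (r : ℕ) :
    ∃ (q a : ℕ) (a₀ j z : ℤ), 1 ≤ q ∧ (q : ℝ) ≤ √(N : ℝ) ∧ a < q ∧ Nat.Coprime a q ∧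
      IsCoprime a₀ (q : ℤ) ∧ |(r : ℝ) / M - a₀ / q| ≤ 1 / ((q : ℝ) * √(N : ℝ)) ∧
      (r : ℤ) = ((a * M / q : ℕ) : ℤ) + j + z * M ∧
      |(j : ℝ)| ≤ 1 + M * |(r : ℝ) / M - a₀ / q| ∧ M * |(r : ℝ) / M - a₀ / q| ≤ |(j : ℝ)| + 1 := by
  have hM1 : 1 ≤ M := by omega
  have hM0 : (0 : ℝ) < M := by exact_mod_cast hM1
  have hn : 0 < Nat.sqrt N := Nat.sqrt_pos.2 hN
  obtain ⟨t, ht, hden⟩ := Real.exists_rat_abs_sub_le_and_den_le ((r : ℝ) / M) hn
  have hq0 : 0 < t.den := t.den_pos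
  have hqR : (0 : ℝ) < (t.den : ℝ) := by exact_mod_cast hq0
  have hsq1 : ((Nat.sqrt N : ℕ) : ℝ) ≤ √(N : ℝ) := Real.nat_sqrt_le_real_sqrt
  have hsq2 : √(N : ℝ) ≤ (Nat.sqrt N : ℝ) + 1 := Real.real_sqrt_le_nat_sqrt_succ
  have hsq0 : 0 < √(N : ℝ) := Real.sqrt_pos.2 (by exact_mod_cast hN)
  have htR : (t : ℝ) = (t.num : ℝ) / (t.den : ℝ) := by
    have := Rat.num_div_den t
    exact_mod_cast congrArg (fun x : ℚ => (x : ℝ)) this.symm
  have hcop0 : IsCoprime t.num (t.den : ℤ) := by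
    rw [Int.isCoprime_iff_gcd_eq_one]
    exact t.reduced
  set q : ℕ := t.den with hq
  set a₀ : ℤ := t.num with ha₀
  have hqZ : (0 : ℤ) < (q : ℤ) := by exact_mod_cast hq0
  set a : ℕ := (a₀ % q).toNat with ha
  set z : ℤ := a₀ / q with hz
  have haZ : (a : ℤ) = a₀ % q := Int.toNat_of_nonneg (Int.emod_nonneg _ hqZ.ne')
  have hdecomp : a₀ = a + q * z := by
    rw [haZ, hz]; exact (Int.emod_add_mul_ediv a₀ q).symm
  have hcop : Nat.Coprime a q := by
    rw [hdecomp, IsCoprime.add_mul_left_left_iff] at hcop0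
    exact Nat.isCoprime_iff_coprime.1 hcop0
  have haq : a < q := by
    have := Int.emod_lt_of_pos a₀ hqZ
    rw [← haZ] at this
    exact_mod_cast this
  obtain ⟨f, hf⟩ : ∃ f : ℕ, f = a * M / q := ⟨_, rfl⟩
  have hf1 : (f : ℝ) ≤ (a : ℝ) * M / q := by
    rw [hf]
    have := Nat.cast_div_le (α := ℝ) (m := a * M) (n := q)
    push_cast at this
    exact this
  have hf2 : (a : ℝ) * M / q < (f : ℝ) + 1 := by
    rw [div_lt_iff₀ hqR]
    have h5 : a * M < (f + 1) * q := by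
      rw [hf, mul_comm (a * M / q + 1)]
      exact Nat.lt_mul_div_succ _ hq0
    exact_mod_cast h5
  have ha0R : (a₀ : ℝ) = a + q * z := by rw [hdecomp]; push_cast; ring
  have hMb : (M : ℝ) * ((r : ℝ) / M - a₀ / q) = r - z * M - a * M / q := by
    rw [ha0R]; field_simp
    ring
  have habs : (M : ℝ) * |(r : ℝ) / M - a₀ / q| = |(r : ℝ) - z * M - a * M / q| := by
    rw [← hMb, abs_mul, abs_of_pos hM0]
  refine ⟨q, a, a₀, (r : ℤ) - (f : ℤ) - z * M, z, hq0, ?_, haq, hcop, ?_, ?_, ?_, ?_, ?_⟩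
  · exact le_trans (by exact_mod_cast hden) hsq1
  · rw [hdecomp, IsCoprime.add_mul_left_left_iff]
    exact Nat.isCoprime_iff_coprime.2 hcop
  · rw [htR] at ht
    refine ht.trans ?_
    rw [mul_comm ((Nat.sqrt N : ℝ) + 1)]
    exact one_div_le_one_div_of_le (by positivity) (mul_le_mul_of_nonneg_left hsq2 hqR.le)
  · rw [← hf]; ring
  · rw [habs]
    push_cast
    have e1 : (r : ℝ) - f - z * M = ((r : ℝ) - z * M - a * M / q) + (a * M / q - f) := by ring
    rw [e1]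
    refine (abs_add_le _ _).trans ?_
    have : |(a : ℝ) * M / q - f| ≤ 1 := by
      rw [abs_of_nonneg (by linarith)]; linarith
    linarith
  · rw [habs]
    push_cast
    have e2 : (r : ℝ) - z * M - a * M / q = ((r : ℝ) - f - z * M) + (f - a * M / q) := by ring
    rw [e2]
    refine (abs_add_le _ _).trans ?_
    have : |(f : ℝ) - (a : ℝ) * M / q| ≤ 1 := by
      rw [abs_of_nonpos (by linarith)]; linarith
    linarith

end Pool.Agent.K1H26.RD
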