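import Pool.Agent.K1H84.RD.Stm
import Pool.Agent.K1H26.RD.Rep

/-!
# RD6: the sum over all frequencies
-/

set_option autoImplicit false

namespace Pool.Agent.K1H26.RD

open Finset Filter
open Pool.Agent.W301.SS
open Pool.Agent.H807R2.Dav
open Pool.Agent.K1H84.RD

theorem clog_le {g : ℕ} (hg : 2 ≤ g) (x : ℕ) (hx : 1 ≤ x) : g ^ Nat.clog g x ≤ g * x := by
  rcases Nat.eq_or_lt_of_le hx with h | h
  · rw [← h, Nat.clog_one_right, pow_zero]; omega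
  · have h1 := Nat.pow_pred_clog_lt_self (by omega : 1 < g) h
    have h2 := Nat.clog_pos (by omega : 1 < g) h
    have h3 : g ^ Nat.clog g x = g * g ^ (Nat.clog g x).pred := by
      rw [← pow_succ']; congr 1; exact (Nat.succ_pred_eq_of_pos h2).symm
    rw [h3]
    exact Nat.mul_le_mul_left _ h1.le

theorem inj_mod {M : ℕ} {r r' : ℕ} (hr : r < M) (hr' : r' < M) {c z z' : ℤ}
    (h : (r : ℤ) = c + z * M) (h' : (r' : ℤ) = c + z' * M) : r = r' := by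
  have h1 : (r : ℤ) % M = c % M := by rw [h, Int.add_mul_emod_self_right]
  have h2 : (r' : ℤ) % M = c % M := by rw [h', Int.add_mul_emod_self_right]
  rw [Int.emod_eq_of_lt (by omega) (by exact_mod_cast hr)] at h1
  rw [Int.emod_eq_of_lt (by omega) (by exact_mod_cast hr')] at h2
  omega

/-- the power of `g` attached to a frequency -/
theorem major_bound {g N M q : ℕ} {j : ℤ} {b : ℝ} (hg : 2 ≤ g) (hM : M = N + 1) (hN : 1 ≤ N)
    (hq : 1 ≤ q) (hb : 0 ≤ b) (hj : |(j : ℝ)| ≤ 1 + M * b) :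
    (g : ℝ) ^ (Nat.clog g (2 * q ^ 2) + Nat.clog g j.natAbs) ≤ 4 * (g : ℝ) ^ 2 * (q * (1 + N * b)) ^ 2 := by
  have hN1 : (1 : ℝ) ≤ N := by exact_mod_cast hN
  have hMR : (M : ℝ) = N + 1 := by rw [hM]; push_cast; ring
  have hgR : (2 : ℝ) ≤ g := by exact_mod_cast hg
  have hq1 : (1 : ℝ) ≤ q := by exact_mod_cast hq
  have h1 : (g : ℝ) ^ Nat.clog g (2 * q ^ 2) ≤ g * (2 * q ^ 2) := by
    have := clog_le hg (2 * q ^ 2) (by nlinarith)
    exact_mod_cast this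
  have h2 : (g : ℝ) ^ Nat.clog g j.natAbs ≤ g * (2 * (1 + N * b)) := by
    have h0 : (1 : ℝ) + M * b ≤ 2 * (1 + N * b) := by
      rw [hMR]; nlinarith
    rcases Nat.eq_zero_or_pos j.natAbs with h | h
    · rw [h, Nat.clog_zero_right, pow_zero]
      have : 0 ≤ (N : ℝ) * b := by positivity
      nlinarith
    · have h3 := clog_le hg j.natAbs h
      have h4 : (g : ℝ) ^ Nat.clog g j.natAbs ≤ g * (j.natAbs : ℝ) := by exact_mod_cast h3
      refine h4.trans (mul_le_mul_of_nonneg_left ?_ (by linarith))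
      rw [Nat.cast_natAbs, Int.cast_abs]
      exact hj.trans h0
  rw [pow_add]
  have hNb : (1 : ℝ) ≤ 1 + N * b := by
    have : 0 ≤ (N : ℝ) * b := by positivity
    linarith
  calc (g : ℝ) ^ Nat.clog g (2 * q ^ 2) * (g : ℝ) ^ Nat.clog g j.natAbs
      ≤ (g * (2 * q ^ 2)) * (g * (2 * (1 + N * b))) := by gcongr
    _ = 4 * (g : ℝ) ^ 2 * q ^ 2 * ((1 + N * b) * 1) := by ring
    _ ≤ 4 * (g : ℝ) ^ 2 * q ^ 2 * ((1 + N * b) * (1 + N * b)) := by gcongr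
    _ = _ := by ring

theorem sqrt_bound {g X G : ℝ} (hg : 1 ≤ g) (hX : 0 < X) (hG : 1 ≤ G) (h : G ≤ 4 * g ^ 2 * X ^ 2) :
    1 / √X ≤ 2 * g * G ^ (-(1 / 4 : ℝ)) := by
  have hs : 0 < √X := Real.sqrt_pos.2 hX
  have hG0 : 0 < G := by linarith
  have h1 : G ≤ (2 * g * √X) ^ 4 := by
    have e1 : (√X) ^ 4 = X ^ 2 := by
      rw [show (4 : ℕ) = 2 * 2 by norm_num, pow_mul, Real.sq_sqrt hX.le]
    calc G ≤ 4 * g ^ 2 * X ^ 2 := h
      _ ≤ 16 * g ^ 4 * X ^ 2 := by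
          have : g ^ 2 ≤ g ^ 4 := pow_le_pow_right₀ hg (by norm_num)
          have hX2 : 0 ≤ X ^ 2 := by positivity
          nlinarith [mul_nonneg (by positivity : (0 : ℝ) ≤ g ^ 4) hX2, mul_le_mul_of_nonneg_right this hX2]
      _ = (2 * g) ^ 4 * (√X) ^ 4 := by rw [e1]; ring
      _ = _ := by ring
  have h2 : G ^ (1 / 4 : ℝ) ≤ 2 * g * √X := by
    have h3 := Real.rpow_le_rpow hG0.le h1 (by norm_num : (0 : ℝ) ≤ 1 / 4)
    have e2 : ((2 * g * √X) ^ 4) ^ (1 / 4 : ℝ) = 2 * g * √X := by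
      rw [show (1 / 4 : ℝ) = ((4 : ℕ) : ℝ)⁻¹ by norm_num]
      exact Real.pow_rpow_inv_natCast (by positivity) (by norm_num)
    rw [e2] at h3
    exact h3
  rw [Real.rpow_neg hG0.le, div_le_iff₀ hs]
  have hG4 : 0 < G ^ (1 / 4 : ℝ) := Real.rpow_pos_of_pos hG0 _
  rw [mul_right_comm, ← div_eq_mul_inv, le_div_iff₀ hG4, one_mul]
  linarith

/-- the sum over a shell -/
theorem shell_sum (hShell : S_SHELL) {g : ℕ} (hg : 4 ≤ g) {D : ℕ → Finset ℕ} {F : ℕ → ℝ → ℝ} {δ : ℝ}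
    (hδ : 0 ≤ δ) (hF : Maj g D F δ) {k M m u : ℕ} (hM : M = g ^ (k + 1)) (hmu : m + u ≤ k + 1)
    (q a : ℕ → ℕ) (j z : ℕ → ℤ) (R : Finset ℕ) (hR : ∀ r ∈ R, r < M) (hq : ∀ r ∈ R, 1 ≤ q r)
    (ha : ∀ r ∈ R, a r < q r) (hc : ∀ r ∈ R, Nat.Coprime (a r) (q r))
    (hr : ∀ r ∈ R, (r : ℤ) = ((a r * M / q r : ℕ) : ℤ) + j r + z r * M)
    (hm : ∀ r ∈ R, Nat.clog g (2 * q r ^ 2) = m) (hu : ∀ r ∈ R, Nat.clog g (j r).natAbs = u) :
    ∑ r ∈ R, ‖FA (dset g D k) ((r : ℝ) / M)‖ ≤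
      4 * (g : ℝ) ^ 2 * (g : ℝ) ^ (δ * (m + u)) * (dset g D k).card := by
  classical
  rcases R.eq_empty_or_nonempty with hemp | ⟨r₁, hr₁⟩
  · rw [hemp, sum_empty]; positivity
  have hg1 : 1 < g := by omega
  have hM0 : 0 < M := by rw [hM]; positivity
  have hMR : (0 : ℝ) < M := by exact_mod_cast hM0
  set Q : ℕ := Nat.sqrt (g ^ m / 2) with hQ
  have hqQ : ∀ r ∈ R, q r ≤ Q := by
    intro r hr'
    rw [hQ, Nat.le_sqrt', Nat.le_div_iff_mul_le (by norm_num)]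
    have := Nat.le_pow_clog hg1 (2 * q r ^ 2)
    rw [hm r hr'] at this
    linarith
  have hQ1 : 1 ≤ Q := (hq r₁ hr₁).trans (hqQ r₁ hr₁)
  have hQ2 : 2 * Q ^ 2 ≤ g ^ m := by
    have h1 : Q ^ 2 ≤ g ^ m / 2 := by rw [hQ]; exact Nat.sqrt_le' _
    have h2 := Nat.div_mul_le_self (g ^ m) 2
    omega
  have hS := hShell g D F δ (by omega) hδ hF k Q m u hQ1 hQ2 hmu
  refine le_trans ?_ hS
  set G : ℕ → ℕ × ℤ → ℝ := fun q' y =>
    ‖FA (dset g D k) ((((y.1 * g ^ (k + 1) / q' : ℕ) : ℝ) + (y.2 : ℝ)) / ((g ^ (k + 1) : ℕ) : ℝ))‖ with hG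
  have e1 : ∑ q' ∈ Icc 1 Q, ∑ a' ∈ (range q').filter (fun a' => Nat.Coprime a' q'),
      ∑ j' ∈ Icc (-((g ^ u : ℕ) : ℤ)) ((g ^ u : ℕ) : ℤ),
      ‖FA (dset g D k) ((((a' * g ^ (k + 1) / q' : ℕ) : ℝ) + (j' : ℝ)) / ((g ^ (k + 1) : ℕ) : ℝ))‖ =
      ∑ x ∈ (Icc 1 Q).sigma (fun q' => ((range q').filter (fun a' => Nat.Coprime a' q')) ×ˢ
        Icc (-((g ^ u : ℕ) : ℤ)) ((g ^ u : ℕ) : ℤ)), G x.1 x.2 := by
    rw [Finset.sum_sigma]
    refine sum_congr rfl fun q' _ => ?_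
    rw [Finset.sum_product]
  rw [e1]
  set Φ : ℕ → (Σ _ : ℕ, ℕ × ℤ) := fun r => ⟨q r, (a r, j r)⟩ with hΦ
  have hinj : ∀ r ∈ R, ∀ r' ∈ R, Φ r = Φ r' → r = r' := by
    intro r h1 r' h2 h
    simp only [hΦ, Sigma.mk.injEq, heq_eq_eq, Prod.mk.injEq] at h
    obtain ⟨h3, h4, h5⟩ := h
    have h6 := hr r h1
    have h7 := hr r' h2
    rw [← h3, ← h4, ← h5] at h7
    exact inj_mod (hR r h1) (hR r' h2) h6 h7
  have e2 : ∑ r ∈ R, ‖FA (dset g D k) ((r : ℝ) / M)‖ = ∑ x ∈ R.image Φ, G x.1 x.2 := by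
    rw [sum_image hinj]
    refine sum_congr rfl fun r h1 => ?_
    have h2 := hr r h1
    have h3 : (r : ℝ) / M = (((a r * M / q r : ℕ) : ℝ) + (j r : ℝ)) / M + (z r : ℝ) := by
      have h4 : (r : ℝ) = ((a r * M / q r : ℕ) : ℝ) + (j r : ℝ) + z r * M := by
        have := congrArg (fun x : ℤ => (x : ℝ)) h2
        simp only [Int.cast_add, Int.cast_mul, Int.cast_natCast] at this
        exact this
      rw [h4]; field_simp
    rw [h3, FA_int]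
    simp only [hG, hΦ, ← hM]
  rw [e2]
  refine sum_le_sum_of_subset_of_nonneg ?_ fun x _ _ => norm_nonneg _
  intro x hx
  rw [mem_image] at hx
  obtain ⟨r, h1, rfl⟩ := hx
  rw [mem_sigma, mem_product, mem_filter, mem_Icc, mem_range, mem_Icc]
  refine ⟨⟨hq r h1, hqQ r h1⟩, ⟨ha r h1, hc r h1⟩, ?_⟩
  have h2 := Nat.le_pow_clog hg1 (j r).natAbs
  rw [hu r h1] at h2
  simp only [hΦ]
  constructor
  · have : -((j r).natAbs : ℤ) ≤ j r := by omega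
    have h3 : ((j r).natAbs : ℤ) ≤ ((g ^ u : ℕ) : ℤ) := by exact_mod_cast h2
    linarith
  · have : j r ≤ ((j r).natAbs : ℤ) := by omega
    have h3 : ((j r).natAbs : ℤ) ≤ ((g ^ u : ℕ) : ℤ) := by exact_mod_cast h2
    linarith

/-- the number of frequencies with small data -/
theorem card_small {M Z : ℕ} (q a : ℕ → ℕ) (j z : ℕ → ℤ) (R : Finset ℕ) (hR : ∀ r ∈ R, r < M)
    (hr : ∀ r ∈ R, (r : ℤ) = ((a r * M / q r : ℕ) : ℤ) + j r + z r * M)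
    (hq : ∀ r ∈ R, q r ≤ Z) (ha : ∀ r ∈ R, a r ≤ Z) (hj : ∀ r ∈ R, (j r).natAbs ≤ Z) :
    R.card ≤ (Z + 1) * ((Z + 1) * (2 * Z + 1)) := by
  classical
  have h1 : R.card ≤ (range (Z + 1) ×ˢ (range (Z + 1) ×ˢ Icc (-(Z : ℤ)) (Z : ℤ))).card := by
    refine card_le_card_of_injOn (fun r => (q r, (a r, j r))) ?_ ?_
    · intro r h
      have h1 := hq r h
      have h2 := ha r h
      have h3 := hj r h
      simp only [coe_product, Set.mem_prod, mem_coe, mem_range, mem_Icc]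
      refine ⟨by omega, by omega, by omega, by omega⟩
    · intro r h r' h' hh
      simp only [Prod.mk.injEq] at hh
      obtain ⟨h3, h4, h5⟩ := hh
      have h6 := hr r h
      have h7 := hr r' h'
      rw [← h3, ← h4, ← h5] at h7
      exact inj_mod (hR r h) (hR r' h') h6 h7
  rw [card_product, card_product, card_range, Int.card_Icc] at h1
  have e : ((Z : ℤ) + 1 - -(Z : ℤ)).toNat = 2 * Z + 1 := by omega
  rw [e] at h1
  exact h1

end Pool.Agent.K1H26.RD
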