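import Pool.Agent.K1H26.RD.Main

/-!
# RD6: assembly
-/

set_option autoImplicit false

namespace Pool.Agent.K1H26.RD

open Finset Filter
open Pool.Agent.W301.SS
open Pool.Agent.H807R2.Dav
open Pool.Agent.K1H84.RD

/-- the kernel at a frequency with small data -/
theorem ker_small (hKer : S_KER) {H H1 q : ℕ} {a₀ : ℤ} {x b Zr P : ℝ} {M : ℕ} {jj : ℝ} (hH : 1 ≤ H) (hHH1 : H ≤ H1)
    (hP : 0 < P) (hHl : P ≤ H) (hH1l : (H1 : ℝ) * P ≤ M) (hq : 1 ≤ q) (hcop : IsCoprime a₀ (q : ℤ))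
    (hb : b = |x - a₀ / q|) (hb2 : b ≤ 1 / (2 * (q : ℝ))) (hqZ : (q : ℝ) ≤ Zr) (hjZ : jj ≤ Zr)
    (hZ : 1 ≤ Zr) (hMb : M * b ≤ jj + 1) : ‖FK H x / H - FK H1 x / H1‖ ≤ 26 * Zr * P⁻¹ := by
  obtain ⟨-, h2, h3⟩ := hKer H H1 hH hHH1 x
  have hHR : (0 : ℝ) < H := by exact_mod_cast hH
  rcases Nat.eq_or_lt_of_le hq with h | h
  · have h4 := h2 a₀
    have hb1 : b = |x - a₀| := by rw [hb, ← h]; simp
    rw [← hb1] at h4
    have h5 : (H1 : ℝ) * b ≤ 2 * Zr * P⁻¹ := by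
      have hb0 : 0 ≤ b := by rw [hb]; exact abs_nonneg _
      rw [← div_eq_mul_inv, le_div_iff₀ hP]
      calc (H1 : ℝ) * b * P = (H1 * P) * b := by ring
        _ ≤ M * b := mul_le_mul_of_nonneg_right hH1l hb0
        _ ≤ jj + 1 := hMb
        _ ≤ 2 * Zr := by linarith
    have hpi := Real.pi_lt_d2
    have hpos : 0 ≤ Zr * P⁻¹ := by positivity
    calc ‖FK H x / H - FK H1 x / H1‖ ≤ 4 * Real.pi * (H1 * b) := h4
      _ ≤ 4 * Real.pi * (2 * Zr * P⁻¹) := mul_le_mul_of_nonneg_left h5 (by positivity)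
      _ = 8 * Real.pi * (Zr * P⁻¹) := by ring
      _ ≤ 26 * (Zr * P⁻¹) := mul_le_mul_of_nonneg_right (by linarith) hpos
      _ = _ := by ring
  · have h4 := h3 q a₀ h hcop (by rw [← hb]; exact hb2)
    refine h4.trans ?_
    have h5 : (3 : ℝ) * q / H ≤ 3 * Zr / P := by
      have hZ0 : 0 ≤ Zr := by linarith
      gcongr
    refine h5.trans ?_
    rw [div_eq_mul_inv]
    have hpos : 0 ≤ Zr * P⁻¹ := by positivity
    nlinarith

theorem pow_compare {G l δ : ℝ} {A E : ℕ} (hl : 1 ≤ l) (hδ : δ < 1 / 5) (hE : (A : ℝ) + 20 ≤ E * (1 / 5 - δ))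
    (hG1 : 1 ≤ G) (hG : l ^ E ≤ G) : G ^ (-(1 / 4 : ℝ)) * G ^ δ ≤ (l ^ (A + 20))⁻¹ := by
  have hl0 : 0 < l := by linarith
  have hG0 : 0 < G := by linarith
  rw [← Real.rpow_add hG0]
  have h1 : G ^ (-(1 / 4 : ℝ) + δ) ≤ G ^ (-(1 / 5 - δ)) :=
    Real.rpow_le_rpow_of_exponent_le hG1 (by linarith)
  have h2 : G ^ (-(1 / 5 - δ)) ≤ (l ^ E) ^ (-(1 / 5 - δ)) :=
    Real.rpow_le_rpow_of_nonpos (by positivity) hG (by linarith)
  have h3 : (l ^ E) ^ (-(1 / 5 - δ)) = l ^ (-(E * (1 / 5 - δ))) := by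
    rw [← Real.rpow_natCast, ← Real.rpow_mul hl0.le]
    congr 1; ring
  have h4 : l ^ (-(E * (1 / 5 - δ))) ≤ l ^ (-((A + 20 : ℕ) : ℝ)) := by
    apply Real.rpow_le_rpow_of_exponent_le hl
    push_cast
    linarith
  have h5 : l ^ (-((A + 20 : ℕ) : ℝ)) = (l ^ (A + 20))⁻¹ := by
    rw [Real.rpow_neg hl0.le, Real.rpow_natCast]
  rw [← h5]
  exact h1.trans (h2.trans (h3.le.trans h4))

theorem small_data {g q : ℕ} {j : ℤ} {W : ℝ} (hg : 2 ≤ g) (hq : 1 ≤ q)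
    (h : (g : ℝ) ^ (Nat.clog g (2 * q ^ 2) + Nat.clog g j.natAbs) ≤ W) : (q : ℝ) ≤ W ∧ |(j : ℝ)| ≤ W := by
  have hgR : (2 : ℝ) ≤ g := by exact_mod_cast hg
  have hqR : (1 : ℝ) ≤ q := by exact_mod_cast hq
  rw [pow_add] at h
  have h1 : (1 : ℝ) ≤ (g : ℝ) ^ (Nat.clog g (2 * q ^ 2)) := one_le_pow₀ (by linarith)
  have h2 : (1 : ℝ) ≤ (g : ℝ) ^ (Nat.clog g j.natAbs) := one_le_pow₀ (by linarith)
  have h3 : ((2 * q ^ 2 : ℕ) : ℝ) ≤ (g : ℝ) ^ (Nat.clog g (2 * q ^ 2)) := by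
    exact_mod_cast Nat.le_pow_clog (by omega : 1 < g) (2 * q ^ 2)
  have h4 : ((j.natAbs : ℕ) : ℝ) ≤ (g : ℝ) ^ (Nat.clog g j.natAbs) := by
    exact_mod_cast Nat.le_pow_clog (by omega : 1 < g) j.natAbs
  have h5 : (g : ℝ) ^ (Nat.clog g (2 * q ^ 2)) ≤ W :=
    (le_mul_of_one_le_right (by linarith) h2).trans h
  have h6 : (g : ℝ) ^ (Nat.clog g j.natAbs) ≤ W :=
    (le_mul_of_one_le_left (by linarith) h1).trans h
  constructor
  · push_cast at h3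
    nlinarith
  · rw [Nat.cast_natAbs, Int.cast_abs] at h4
    linarith

theorem main_k (hShell : S_SHELL) (hL1 : S_L1) {C : ℝ} (hC : 0 < C)
    (hSP : ∀ N q : ℕ, 1 ≤ N → 1 ≤ q → (q : ℝ) ≤ √(N : ℝ) → ∀ a : ℤ, IsCoprime a (q : ℤ) →
      ∀ α : ℝ, |α - a / q| ≤ 1 / ((q : ℝ) * √(N : ℝ)) →
      ‖SP N α‖ ≤ C * (1 + Real.log N) ^ 7 * ((N : ℝ) ^ (4 / 5 : ℝ) + N / √((q : ℝ) * (1 + N * |α - a / q|))))
    (hKer : S_KER) {g : ℕ} (hg : 4 ≤ g) {δ : ℝ} (hδ0 : 0 ≤ δ) (hδ1 : δ < 1 / 5) {A E : ℕ}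
    (hE : (A : ℝ) + 20 ≤ E * (1 / 5 - δ)) {k : ℕ} {D : ℕ → Finset ℕ} {F : ℕ → ℝ → ℝ} (hF : Maj g D F δ)
    {M : ℕ} (hM : M = g ^ (k + 1)) {l : ℝ} (hl : l = Real.log M) (hl3 : 3 ≤ l)
    (c1 : 12 * C * g * (1 + l) ^ 7 * l ^ A ≤ Real.exp ((1 / 5 - δ) * l))
    (c2 : 4 * (g : ℝ) ^ 2 ≤ Real.exp (l / 5))
    (c3 : 48 * (g : ℝ) ^ 3 * C * (1 + l) ^ 7 * ((k : ℝ) + 2) ^ 2 ≤ l ^ 20)
    {H H1 : ℕ} (hH : 1 ≤ H) (hHl : l ^ (5 * E + A + 10) ≤ H) (hHH1 : H ≤ H1)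
    (hH1l : (H1 : ℝ) * l ^ (5 * E + A + 10) ≤ M) :
    ∑ r ∈ range M, ‖SP (M - 1) (-((r : ℝ) / M))‖ * (‖FA (dset g D k) ((r : ℝ) / M)‖ *
      ‖FK H ((r : ℝ) / M) / H - FK H1 ((r : ℝ) / M) / H1‖) * l ^ A ≤ M * (dset g D k).card := by
  classical
  have hl0 : 0 < l := by linarith
  have hl1 : 1 ≤ l := by linarith
  have hMpos : 0 < M := by rw [hM]; positivity
  have hMR : (0 : ℝ) < M := by exact_mod_cast hMpos
  have hexp : Real.exp l = M := by rw [hl, Real.exp_log hMR]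
  have hM8 : (8 : ℝ) < M := by
    rw [← hexp]
    have := Real.quadratic_le_exp_of_nonneg hl0.le
    nlinarith
  have hM8N : 8 < M := by exact_mod_cast hM8
  obtain ⟨N, hN⟩ : ∃ N, M = N + 1 := ⟨M - 1, by omega⟩
  have hNM : M - 1 = N := by omega
  have hN1 : 1 ≤ N := by omega
  have hNR : (8 : ℝ) ≤ N := by
    have : 8 ≤ N := by omega
    exact_mod_cast this
  have hNR0 : (0 : ℝ) < N := by linarith
  have hNle : (N : ℝ) ≤ M := by rw [hN]; push_cast; linarith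
  have hgR : (4 : ℝ) ≤ g := by exact_mod_cast hg
  have hlogN : Real.log N ≤ l := by rw [hl]; exact Real.log_le_log hNR0 hNle
  have hlogN0 : 0 ≤ Real.log N := Real.log_nonneg (by linarith)
  have hsqN : 2 ≤ √(N : ℝ) := by
    rw [show (2 : ℝ) = √4 by rw [show (4 : ℝ) = 2 ^ 2 by norm_num]; exact (Real.sqrt_sq (by norm_num)).symm]
    exact Real.sqrt_le_sqrt (by linarith)
  set S := dset g D k with hS
  obtain ⟨s, hs⟩ : ∃ s : ℝ, s = (S.card : ℝ) := ⟨_, rfl⟩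
  have hs0 : 0 ≤ s := by rw [hs]; exact Nat.cast_nonneg _
  obtain ⟨L, hL⟩ : ∃ L : ℝ, L = C * (1 + l) ^ 7 := ⟨_, rfl⟩
  have hL0 : 0 < L := by rw [hL]; positivity
  obtain ⟨Y, hY⟩ : ∃ Y : ℝ, Y = (M : ℝ) ^ (4 / 5 : ℝ) := ⟨_, rfl⟩
  have hY0 : 0 < Y := by rw [hY]; positivity
  have hrep := fun r => rep hN1 hN r
  choose q a a₀ j z hq1 hqN haq hcop hcop0 hb hr hj1 hj2 using hrep
  obtain ⟨b, hbd⟩ : ∃ b : ℕ → ℝ, ∀ r, b r = |(r : ℝ) / M - a₀ r / q r| := ⟨_, fun r => rfl⟩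
  simp only [← hbd] at hb hj1 hj2
  have hb0 : ∀ r, 0 ≤ b r := fun r => by rw [hbd]; exact abs_nonneg _
  have hq1R : ∀ r, (1 : ℝ) ≤ q r := fun r => by exact_mod_cast hq1 r
  obtain ⟨X, hX⟩ : ∃ X : ℕ → ℝ, ∀ r, X r = q r * (1 + N * b r) := ⟨_, fun r => rfl⟩
  have hX1 : ∀ r, 1 ≤ X r := by
    intro r
    rw [hX]
    have : 0 ≤ (N : ℝ) * b r := mul_nonneg hNR0.le (hb0 r)
    exact one_le_mul_of_one_le_of_one_le (hq1R r) (by linarith)
  obtain ⟨p, hp⟩ : ∃ p : ℕ → ℕ × ℕ, ∀ r, p r = (Nat.clog g (2 * q r ^ 2), Nat.clog g (j r).natAbs) :=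
    ⟨_, fun r => rfl⟩
  obtain ⟨G, hG⟩ : ∃ G : ℕ × ℕ → ℝ, ∀ x, G x = (g : ℝ) ^ (x.1 + x.2) := ⟨_, fun x => rfl⟩
  have hG1 : ∀ x, 1 ≤ G x := fun x => by rw [hG]; exact one_le_pow₀ (by linarith)
  have hGX : ∀ r, G (p r) ≤ 4 * (g : ℝ) ^ 2 * X r ^ 2 := by
    intro r
    rw [hG, hp, hX]
    exact major_bound (by omega) hN hN1 (hq1 r) (hb0 r) (hj1 r)
  obtain ⟨f, hf⟩ : ∃ f : ℕ → ℝ, ∀ r, f r = ‖FA S ((r : ℝ) / M)‖ := ⟨_, fun r => rfl⟩
  obtain ⟨κ, hκ⟩ : ∃ κ : ℕ → ℝ, ∀ r, κ r = ‖FK H ((r : ℝ) / M) / H - FK H1 ((r : ℝ) / M) / H1‖ :=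
    ⟨_, fun r => rfl⟩
  obtain ⟨σ, hσ⟩ : ∃ σ : ℕ → ℝ, ∀ r, σ r = ‖SP (M - 1) (-((r : ℝ) / M))‖ := ⟨_, fun r => rfl⟩
  have hf0 : ∀ r, 0 ≤ f r := fun r => by rw [hf]; exact norm_nonneg _
  have hfs : ∀ r, f r ≤ s := fun r => by rw [hf, hs]; exact FA_le _ _
  have hκ0 : ∀ r, 0 ≤ κ r := fun r => by rw [hκ]; exact norm_nonneg _
  have hκ2 : ∀ r, κ r ≤ 2 := fun r => by rw [hκ]; exact (hKer H H1 hH hHH1 _).1
  have hσ0 : ∀ r, 0 ≤ σ r := fun r => by rw [hσ]; exact norm_nonneg _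
  have hσM : ∀ r, σ r ≤ 2 * M := fun r => by
    rw [hσ]
    refine (SP_le _ _).trans ?_
    rw [hNM]; linarith
  have hσV : ∀ r, σ r ≤ L * (Y + N / √(X r)) := by
    intro r
    rw [hσ, SP_neg, hNM]
    have h1 := hSP N (q r) hN1 (hq1 r) (hqN r) (a₀ r) (hcop0 r) ((r : ℝ) / M) (by rw [← hbd]; exact hb r)
    rw [← hbd, ← hX] at h1
    refine h1.trans ?_
    have h2 : (N : ℝ) ^ (4 / 5 : ℝ) ≤ Y := by
      rw [hY]; exact Real.rpow_le_rpow hNR0.le hNle (by norm_num)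
    have h3 : C * (1 + Real.log N) ^ 7 ≤ L := by
      rw [hL]; gcongr
    have h4 : 0 ≤ (N : ℝ) / √(X r) := by positivity
    exact mul_le_mul h3 (by linarith) (by positivity) hL0.le
  simp only [← hf, ← hκ, ← hσ]
  have hgoalc : ((S.card : ℕ) : ℝ) = s := hs.symm
  rw [hgoalc]
  -- the classes of frequencies
  obtain ⟨P, hP⟩ : ∃ P : ℝ, P = l ^ (5 * E + A + 10) := ⟨_, rfl⟩
  rw [← hP] at hHl hH1l
  have hP0 : 0 < P := by rw [hP]; positivity
  obtain ⟨W, hW⟩ : ∃ W : ℝ, W = l ^ E := ⟨_, rfl⟩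
  have hW1 : 1 ≤ W := by rw [hW]; exact one_le_pow₀ hl1
  obtain ⟨κ₀, hκ₀⟩ : ∃ κ₀ : ℝ, κ₀ = 26 * W * P⁻¹ := ⟨_, rfl⟩
  have hκ₀0 : 0 ≤ κ₀ := by rw [hκ₀]; positivity
  obtain ⟨N5, hN5⟩ : ∃ N5 : ℝ, N5 = (N : ℝ) ^ (2 / 5 : ℝ) := ⟨_, rfl⟩
  set II := (range M).filter (fun r => X r < N5 ∧ W < G (p r)) with hII
  set III := (range M).filter (fun r => X r < N5 ∧ G (p r) ≤ W) with hIII
  have hJ : ∀ r, G (p r) ≤ W → (q r : ℝ) ≤ W ∧ |(j r : ℝ)| ≤ W := by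
    intro r h
    rw [hG, hp] at h
    exact small_data (by omega) (hq1 r) h
  have hpt : ∀ r ∈ range M, σ r * (f r * κ r) ≤ 4 * L * Y * f r +
      (if r ∈ II then 4 * g * L * N * G (p r) ^ (-(1 / 4 : ℝ)) * f r else 0) +
      (if r ∈ III then 2 * M * s * κ₀ else 0) := by
    intro r hrM
    have hi2 : 0 ≤ (if r ∈ II then 4 * g * L * N * G (p r) ^ (-(1 / 4 : ℝ)) * f r else 0) := by
      split_ifs
      · have := hG1 (p r)
        have := hf0 r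
        positivity
      · exact le_rfl
    have hi3 : 0 ≤ (if r ∈ III then 2 * M * s * κ₀ else 0) := by
      split_ifs
      · positivity
      · exact le_rfl
    have hfκ : f r * κ r ≤ f r * 2 := mul_le_mul_of_nonneg_left (hκ2 r) (hf0 r)
    have hfκ0 : 0 ≤ f r * κ r := mul_nonneg (hf0 r) (hκ0 r)
    have hLYf : 0 ≤ 4 * L * Y * f r := by have := hf0 r; positivity
    rcases le_or_gt N5 (X r) with hc | hc
    · -- minor
      have h1 : N / √(X r) ≤ Y := by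
        have h2 : (N : ℝ) ^ (1 / 5 : ℝ) ≤ √(X r) := by
          rw [Real.sqrt_eq_rpow]
          have h3 := Real.rpow_le_rpow (by rw [hN5]; positivity) hc (by norm_num : (0 : ℝ) ≤ 1 / 2)
          rw [hN5, ← Real.rpow_mul hNR0.le] at h3
          norm_num at h3 ⊢
          exact h3
        have h4 : 0 < (N : ℝ) ^ (1 / 5 : ℝ) := Real.rpow_pos_of_pos hNR0 _
        calc (N : ℝ) / √(X r) ≤ N / (N : ℝ) ^ (1 / 5 : ℝ) := div_le_div_of_nonneg_left hNR0.le h4 h2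
          _ = (N : ℝ) ^ (4 / 5 : ℝ) := by
              rw [div_eq_iff h4.ne', ← Real.rpow_add hNR0]
              norm_num
          _ ≤ Y := by rw [hY]; exact Real.rpow_le_rpow hNR0.le hNle (by norm_num)
      have h5 : σ r ≤ L * (2 * Y) := (hσV r).trans (mul_le_mul_of_nonneg_left (by linarith) hL0.le)
      have h6 : σ r * (f r * κ r) ≤ (L * (2 * Y)) * (f r * 2) :=
        mul_le_mul h5 hfκ hfκ0 (by positivity)
      calc σ r * (f r * κ r) ≤ _ := h6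
        _ = 4 * L * Y * f r := by ring
        _ ≤ _ := by linarith
    · rcases le_or_gt (G (p r)) W with hc2 | hc2
      · -- small data
        have hmem : r ∈ III := by rw [hIII, mem_filter]; exact ⟨hrM, hc, hc2⟩
        have hJr := hJ r hc2
        have hb2 : b r ≤ 1 / (2 * (q r : ℝ)) := by
          refine (hb r).trans ?_
          have h5 := hq1R r
          apply one_div_le_one_div_of_le (by positivity)
          calc 2 * (q r : ℝ) = q r * 2 := by ring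
            _ ≤ q r * √(N : ℝ) := mul_le_mul_of_nonneg_left hsqN (by linarith)
        have hk : κ r ≤ κ₀ := by
          rw [hκ, hκ₀]
          exact ker_small hKer hH hHH1 hP0 hHl hH1l (hq1 r) (hcop0 r) (hbd r) hb2 hJr.1 hJr.2 hW1 (hj2 r)
        have h6 : σ r * (f r * κ r) ≤ (2 * M) * (s * κ₀) :=
          mul_le_mul (hσM r) (mul_le_mul (hfs r) hk (hκ0 r) hs0) hfκ0 (by positivity)
        rw [if_pos hmem]
        calc σ r * (f r * κ r) ≤ _ := h6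
          _ = 2 * M * s * κ₀ := by ring
          _ ≤ _ := by linarith
      · -- shells
        have hmem : r ∈ II := by rw [hII, mem_filter]; exact ⟨hrM, hc, hc2⟩
        have h1 := sqrt_bound (g := (g : ℝ)) (by linarith) (lt_of_lt_of_le one_pos (hX1 r)) (hG1 (p r)) (hGX r)
        have h2 : N / √(X r) ≤ N * (2 * g * G (p r) ^ (-(1 / 4 : ℝ))) := by
          rw [div_eq_mul_one_div]
          exact mul_le_mul_of_nonneg_left h1 hNR0.le
        have h5 : σ r ≤ L * (Y + N * (2 * g * G (p r) ^ (-(1 / 4 : ℝ)))) :=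
          (hσV r).trans (mul_le_mul_of_nonneg_left (by linarith) hL0.le)
        have hG0 : 0 ≤ G (p r) ^ (-(1 / 4 : ℝ)) := by have := hG1 (p r); positivity
        have h6 : σ r * (f r * κ r) ≤ (L * (Y + N * (2 * g * G (p r) ^ (-(1 / 4 : ℝ))))) * (f r * 2) :=
          mul_le_mul h5 hfκ hfκ0 (by positivity)
        rw [if_pos hmem]
        have h7 : 0 ≤ 2 * L * Y * f r := by have := hf0 r; positivity
        calc σ r * (f r * κ r) ≤ _ := h6
          _ = 2 * L * Y * f r + 4 * g * L * N * G (p r) ^ (-(1 / 4 : ℝ)) * f r := by ring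
          _ ≤ _ := by linarith
  -- summation
  have hsum : ∑ r ∈ range M, σ r * (f r * κ r) ≤ 4 * L * Y * ∑ r ∈ range M, f r +
      ∑ r ∈ II, 4 * g * L * N * G (p r) ^ (-(1 / 4 : ℝ)) * f r + III.card * (2 * M * s * κ₀) := by
    refine (sum_le_sum hpt).trans ?_
    rw [sum_add_distrib, sum_add_distrib, ← mul_sum]
    refine add_le_add (add_le_add le_rfl (le_of_eq ?_)) (le_of_eq ?_)
    · rw [sum_ite_mem, inter_eq_right.2 (filter_subset _ _)]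
    · rw [sum_ite_mem, inter_eq_right.2 (filter_subset _ _), sum_const, nsmul_eq_mul]
  have hLA : 0 < l ^ A := by positivity
  -- first sum
  have hS1 : (4 * L * Y * ∑ r ∈ range M, f r) * l ^ A ≤ M * s / 3 := by
    have h1 := hL1 g D F δ (by omega) hδ0 hF k
    rw [← hM] at h1
    have h2 : ∑ r ∈ range M, f r ≤ g * (g : ℝ) ^ (δ * k) * s := by
      rw [hs]
      refine le_trans (le_of_eq ?_) h1
      exact sum_congr rfl fun r _ => hf r
    have h3 : (g : ℝ) ^ (δ * k) ≤ (M : ℝ) ^ δ := by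
      rw [mul_comm, Real.rpow_mul (by positivity), Real.rpow_natCast]
      apply Real.rpow_le_rpow (by positivity) _ hδ0
      rw [hM]; push_cast
      exact pow_le_pow_right₀ (by linarith) (by omega)
    obtain ⟨Q, hQ⟩ : ∃ Q : ℝ, Q = Real.exp ((1 / 5 - δ) * l) := ⟨_, rfl⟩
    rw [← hQ] at c1
    have hQ0 : 0 < Q := by rw [hQ]; exact Real.exp_pos _
    have hYM : Y * (M : ℝ) ^ δ * Q = M := by
      rw [hY, hQ, mul_comm (1 / 5 - δ) l, Real.exp_mul, hexp, ← Real.rpow_add hMR, ← Real.rpow_add hMR]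
      have : (4 : ℝ) / 5 + δ + (1 / 5 - δ) = 1 := by ring
      rw [this, Real.rpow_one]
    have hMδ : 0 < (M : ℝ) ^ δ := Real.rpow_pos_of_pos hMR _
    have h4 : ∑ r ∈ range M, f r ≤ g * (M : ℝ) ^ δ * s := h2.trans (by gcongr)
    have h5 : (4 * L * Y * ∑ r ∈ range M, f r) * l ^ A ≤ (4 * L * Y * (g * (M : ℝ) ^ δ * s)) * l ^ A := by
      gcongr
    refine h5.trans ?_
    have h6 : 12 * L * g * l ^ A ≤ Q := by
      rw [hL]; linarith
    calc (4 * L * Y * (g * (M : ℝ) ^ δ * s)) * l ^ A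
        = (12 * L * g * l ^ A) * (Y * (M : ℝ) ^ δ * s) / 3 := by ring
      _ ≤ Q * (Y * (M : ℝ) ^ δ * s) / 3 := by gcongr
      _ = (Y * (M : ℝ) ^ δ * Q) * s / 3 := by ring
      _ = _ := by rw [hYM]
  -- third sum
  have hS3 : (III.card * (2 * M * s * κ₀)) * l ^ A ≤ M * s / 3 := by
    have h1 : III.card ≤ (⌊W⌋₊ + 1) * ((⌊W⌋₊ + 1) * (2 * ⌊W⌋₊ + 1)) := by
      refine card_small (M := M) q a j z III ?_ ?_ ?_ ?_ ?_
      · intro r h; exact mem_range.1 (mem_filter.1 h).1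
      · intro r _; exact hr r
      · intro r h
        exact Nat.le_floor (hJ r (mem_filter.1 h).2.2).1
      · intro r h
        exact (haq r).le.trans (Nat.le_floor (hJ r (mem_filter.1 h).2.2).1)
      · intro r h
        apply Nat.le_floor
        rw [Nat.cast_natAbs, Int.cast_abs]
        exact (hJ r (mem_filter.1 h).2.2).2
    have hfl : ((⌊W⌋₊ : ℕ) : ℝ) ≤ W := Nat.floor_le (by linarith)
    have h2 : (III.card : ℝ) ≤ 12 * W ^ 3 := by
      have h3 : (III.card : ℝ) ≤ ((⌊W⌋₊ : ℝ) + 1) * (((⌊W⌋₊ : ℝ) + 1) * (2 * (⌊W⌋₊ : ℝ) + 1)) := by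
        exact_mod_cast h1
      refine h3.trans ?_
      have h4 : ((⌊W⌋₊ : ℝ) + 1) * (((⌊W⌋₊ : ℝ) + 1) * (2 * (⌊W⌋₊ : ℝ) + 1)) ≤
          (2 * W) * ((2 * W) * (3 * W)) := by
        apply mul_le_mul (by linarith) _ (by positivity) (by linarith)
        apply mul_le_mul (by linarith) (by linarith) (by positivity) (by linarith)
      refine h4.trans (le_of_eq (by ring))
    have h5 : 1872 * (W ^ 4 * l ^ A) ≤ P := by
      have h6 : P = W ^ 4 * l ^ A * (W * l ^ 10) := by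
        rw [hP, hW]; ring
      have h7 : (3 : ℝ) ^ 10 ≤ l ^ 10 := pow_le_pow_left₀ (by norm_num) hl3 10
      have h8 : (1872 : ℝ) ≤ W * l ^ 10 := by
        have : (1872 : ℝ) ≤ 1 * l ^ 10 := by norm_num at h7 ⊢; linarith
        exact this.trans (mul_le_mul_of_nonneg_right hW1 (by positivity))
      rw [h6, mul_comm]
      exact mul_le_mul_of_nonneg_left h8 (by positivity)
    calc (III.card * (2 * M * s * κ₀)) * l ^ A ≤ ((12 * W ^ 3) * (2 * M * s * κ₀)) * l ^ A := by gcongr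
      _ = (M * s / 3) * ((1872 * (W ^ 4 * l ^ A)) * P⁻¹) := by rw [hκ₀]; ring
      _ ≤ (M * s / 3) * (P * P⁻¹) := by gcongr
      _ = _ := by rw [mul_inv_cancel₀ hP0.ne', mul_one]
  -- second sum
  have hS2 : (∑ r ∈ II, 4 * g * L * N * G (p r) ^ (-(1 / 4 : ℝ)) * f r) * l ^ A ≤ M * s / 3 := by
    have hIIp : ∀ r ∈ II, (p r).1 + (p r).2 ≤ k + 1 := by
      intro r h
      have h1 := (mem_filter.1 h).2.1
      have h2 := hGX r
      have h3 : X r ^ 2 ≤ (M : ℝ) ^ (4 / 5 : ℝ) := by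
        have h4 : X r ^ 2 ≤ N5 ^ 2 := pow_le_pow_left₀ (by linarith [hX1 r]) h1.le 2
        have h5 : N5 ^ 2 = (N : ℝ) ^ (4 / 5 : ℝ) := by
          rw [hN5, ← Real.rpow_natCast, ← Real.rpow_mul hNR0.le]; norm_num
        rw [h5] at h4
        exact h4.trans (Real.rpow_le_rpow hNR0.le hNle (by norm_num))
      have h6 : G (p r) ≤ M := by
        have e1 : Real.exp (l / 5) = (M : ℝ) ^ (1 / 5 : ℝ) := by
          rw [← hexp, ← Real.exp_mul]; congr 1; ring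
        rw [e1] at c2
        calc G (p r) ≤ 4 * (g : ℝ) ^ 2 * X r ^ 2 := h2
          _ ≤ (M : ℝ) ^ (1 / 5 : ℝ) * (M : ℝ) ^ (4 / 5 : ℝ) := by gcongr
          _ = M := by rw [← Real.rpow_add hMR]; norm_num
      rw [hG, hM] at h6
      have h7 : g ^ ((p r).1 + (p r).2) ≤ g ^ (k + 1) := by exact_mod_cast h6
      exact (Nat.pow_le_pow_iff_right (by omega : 1 < g)).1 h7
    have hbox : ∀ r ∈ II, p r ∈ range (k + 2) ×ˢ range (k + 2) := by
      intro r h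
      have := hIIp r h
      rw [mem_product, mem_range, mem_range]
      omega
    obtain ⟨V, hV⟩ : ∃ V : ℝ, V = 16 * (g : ℝ) ^ 3 * L * N * s * (l ^ (A + 20))⁻¹ := ⟨_, rfl⟩
    have hV0 : 0 ≤ V := by rw [hV]; positivity
    have hfib : ∀ x ∈ range (k + 2) ×ˢ range (k + 2),
        ∑ r ∈ II.filter (fun r => p r = x), 4 * g * L * N * G (p r) ^ (-(1 / 4 : ℝ)) * f r ≤ V := by
      intro x _
      rcases (II.filter (fun r => p r = x)).eq_empty_or_nonempty with hemp | ⟨r₁, hr₁⟩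
      · rw [hemp, sum_empty]; exact hV0
      have hr₁' := mem_filter.1 hr₁
      have hx2 : x.1 + x.2 ≤ k + 1 := by rw [← hr₁'.2]; exact hIIp r₁ hr₁'.1
      have hxW : W ≤ G x := by rw [← hr₁'.2]; exact (mem_filter.1 hr₁'.1).2.2.le
      have e1 : ∑ r ∈ II.filter (fun r => p r = x), 4 * g * L * N * G (p r) ^ (-(1 / 4 : ℝ)) * f r =
          4 * g * L * N * G x ^ (-(1 / 4 : ℝ)) * ∑ r ∈ II.filter (fun r => p r = x), f r := by
        rw [mul_sum]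
        refine sum_congr rfl fun r h => ?_
        rw [(mem_filter.1 h).2]
      have h1 : ∑ r ∈ II.filter (fun r => p r = x), f r ≤
          4 * (g : ℝ) ^ 2 * (g : ℝ) ^ (δ * (x.1 + x.2)) * s := by
        rw [hs]
        refine le_trans (le_of_eq (sum_congr rfl fun r _ => hf r)) ?_
        refine shell_sum hShell hg hδ0 hF hM hx2 q a j z _ ?_ ?_ ?_ ?_ ?_ ?_ ?_
        · intro r h; exact mem_range.1 (mem_filter.1 (mem_filter.1 h).1).1
        · intro r _; exact hq1 r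
        · intro r _; exact haq r
        · intro r _; exact hcop r
        · intro r _; exact hr r
        · intro r h
          have := (mem_filter.1 h).2
          rw [hp] at this
          exact congrArg Prod.fst this
        · intro r h
          have := (mem_filter.1 h).2
          rw [hp] at this
          exact congrArg Prod.snd this
      have h2 : (g : ℝ) ^ (δ * (x.1 + x.2)) = G x ^ δ := by
        rw [hG, mul_comm, Real.rpow_mul (by positivity)]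
        congr 1
        rw [← Real.rpow_natCast]; push_cast; rfl
      rw [h2] at h1
      have h3 := pow_compare hl1 hδ1 hE (hG1 x) (hW ▸ hxW)
      have hGx0 : 0 ≤ G x ^ (-(1 / 4 : ℝ)) := by have := hG1 x; positivity
      rw [e1, hV]
      calc 4 * g * L * N * G x ^ (-(1 / 4 : ℝ)) * ∑ r ∈ II.filter (fun r => p r = x), f r
          ≤ 4 * g * L * N * G x ^ (-(1 / 4 : ℝ)) * (4 * (g : ℝ) ^ 2 * G x ^ δ * s) := by gcongr
        _ = 16 * (g : ℝ) ^ 3 * L * N * s * (G x ^ (-(1 / 4 : ℝ)) * G x ^ δ) := by ring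
        _ ≤ _ := by gcongr
    have h4 : ∑ r ∈ II, 4 * g * L * N * G (p r) ^ (-(1 / 4 : ℝ)) * f r ≤ ((k : ℝ) + 2) ^ 2 * V := by
      rw [← sum_fiberwise_of_maps_to hbox]
      refine (sum_le_card_nsmul _ _ V hfib).trans (le_of_eq ?_)
      rw [nsmul_eq_mul, card_product, card_range]
      push_cast; ring
    have hlne : l ^ (A + 20) ≠ 0 := by positivity
    have h20 : 0 < l ^ 20 := by positivity
    have h5 : 48 * (g : ℝ) ^ 3 * L * ((k : ℝ) + 2) ^ 2 ≤ l ^ 20 := by rw [hL]; linarith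
    calc (∑ r ∈ II, 4 * g * L * N * G (p r) ^ (-(1 / 4 : ℝ)) * f r) * l ^ A
        ≤ (((k : ℝ) + 2) ^ 2 * V) * l ^ A := by gcongr
      _ = (48 * (g : ℝ) ^ 3 * L * ((k : ℝ) + 2) ^ 2) * (N * s / 3) * ((l ^ (A + 20))⁻¹ * l ^ A) := by
          rw [hV]; ring
      _ ≤ l ^ 20 * (M * s / 3) * ((l ^ (A + 20))⁻¹ * l ^ A) := by gcongr
      _ = (M * s / 3) * ((l ^ (A + 20))⁻¹ * l ^ (A + 20)) := by rw [pow_add]; ring
      _ = _ := by rw [inv_mul_cancel₀ hlne, mul_one]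
  calc ∑ r ∈ range M, σ r * (f r * κ r) * l ^ A = (∑ r ∈ range M, σ r * (f r * κ r)) * l ^ A := by
        rw [sum_mul]
    _ ≤ (4 * L * Y * ∑ r ∈ range M, f r +
      ∑ r ∈ II, 4 * g * L * N * G (p r) ^ (-(1 / 4 : ℝ)) * f r + III.card * (2 * M * s * κ₀)) * l ^ A :=
        mul_le_mul_of_nonneg_right hsum hLA.le
    _ = (4 * L * Y * ∑ r ∈ range M, f r) * l ^ A +
      (∑ r ∈ II, 4 * g * L * N * G (p r) ^ (-(1 / 4 : ℝ)) * f r) * l ^ A +
      (III.card * (2 * M * s * κ₀)) * l ^ A := by ring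
    _ ≤ M * s / 3 + M * s / 3 + M * s / 3 := add_le_add (add_le_add hS1 hS2) hS3
    _ = _ := by ring

end Pool.Agent.K1H26.RD
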